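import Pool.Agent.H.MP_29dbc1_al.Tab

set_option autoImplicit false

namespace Pool.Agent.H.MP_29dbc1_al

lemma c1 : ∀ c : T, ∑ b, H1 b * H1i (c - b) = if c = 0 then 1 else 0 := by decide +kernel

end Pool.Agent.H.MP_29dbc1_al
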