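import Pool.Agent.H.MP_29dbc1_al.TabA
import Pool.Agent.H.MP_29dbc1_al.TabB
import Pool.Agent.H.MP_29dbc1_al.TabC

set_option autoImplicit false

namespace Pool.Agent.H.MP_29dbc1_al

section gen
variable {R : Type} [Ring R] {S : Type} [AddCommGroup S] [Fintype S] [DecidableEq S]

def ev (ψ : S → R) (F : S → ℤ) : R := ∑ b, F b • ψ b

lemma ev_mul (ψ : S → R) (hψ : ∀ a b, ψ (a + b) = ψ a * ψ b) (F G H : S → ℤ)
    (h : ∀ c, ∑ b, F b * G (c - b) = H c) : ev ψ F * ev ψ G = ev ψ H := by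
  unfold ev
  simp only [← h, Finset.sum_smul]
  rw [Finset.sum_comm, Finset.sum_mul]
  refine Finset.sum_congr rfl fun b _ => ?_
  rw [Finset.mul_sum, ← Equiv.sum_comp (Equiv.subRight b)]
  refine Finset.sum_congr rfl fun c _ => ?_
  simp only [Equiv.subRight_apply]
  rw [smul_mul_smul_comm, ← hψ, add_sub_cancel]

lemma ev_delta (ψ : S → R) (a : S) (m : ℤ) :
    ev ψ (fun c => if c = a then m else 0) = m • ψ a := by
  simp [ev, ite_smul]

lemma ev_shift (ψ : S → R) (hψ : ∀ a b, ψ (a + b) = ψ a * ψ b) (a : S) (F : S → ℤ) :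
    ψ a * ev ψ F = ev ψ (fun c => F (c - a)) := by
  have := ev_mul ψ hψ (fun c => if c = a then 1 else 0) F (fun c => F (c - a)) (by
    intro c; simp [ite_mul])
  rwa [ev_delta, one_smul] at this

lemma ev_lin (ψ : S → R) (F G H : S → ℤ) (m : ℤ) (h : ∀ c, H c = F c + m * G c) :
    ev ψ H = ev ψ F + m • ev ψ G := by
  simp [ev, h, add_smul, Finset.sum_add_distrib, Finset.smul_sum, mul_smul]

lemma ev_conj (ψ : S → R) (x : R) (e e' : S → S) (h1 : ∀ b, e' (e b) = b) (h2 : ∀ b, e (e' b) = b)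
    (hx : ∀ b, x * ψ b = ψ (e b) * x) (F : S → ℤ) :
    x * ev ψ F = ev ψ (fun b => F (e' b)) * x := by
  unfold ev
  rw [← Equiv.sum_comp (⟨e, e', h1, h2⟩ : S ≃ S) (fun b => F (e' b) • ψ b), Finset.mul_sum,
    Finset.sum_mul]
  refine Finset.sum_congr rfl fun b _ => ?_
  simp only [Equiv.coe_fn_mk, h1, mul_smul_comm, smul_mul_assoc, hx]

lemma ev_comm (ψ : S → R) (y : R) (F : S → ℤ) (h : ∀ b, F b ≠ 0 → Commute y (ψ b)) :
    Commute y (ev ψ F) := by
  unfold ev
  refine Commute.sum_right _ _ _ fun b _ => ?_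
  by_cases hb : F b = 0
  · simp [hb]
  · exact (h b hb).smul_right _

lemma ev_star (ψ : S → R) (φ : R →ₗ[ℤ] R) (h : ∀ b, φ (ψ b) = ψ (-b)) (F : S → ℤ) :
    φ (ev ψ F) = ev ψ (fun b => F (-b)) := by
  unfold ev
  rw [map_sum, ← Equiv.sum_comp (Equiv.neg S)]
  simp only [Equiv.neg_apply, map_smul, h, neg_neg]

end gen

lemma alg {R : Type} [Ring R] [Module.IsTorsionFree ℤ R] (h t b h' t' b' P M : R)
    (e0 : h * h' = 1) (e1 : (h + (289 : ℤ) • t) * (h' + (289 : ℤ) • t') = 1)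
    (e2 : (h + (289 : ℤ) • b) * (h' + (289 : ℤ) • b') = 1)
    (hPP : P * P = (289 : ℤ) • P) (hMM : M * M = (289 : ℤ) • M) (hPM : P * M = 0) (hMP : M * P = 0)
    (c1 : Commute P h) (c2 : Commute P t) (c3 : Commute M h) (c4 : Commute M t)
    (c5 : Commute M b) :
    (h + P * t + M * b) * (h' + P * t' + M * b') = 1 := by
  have k1 : h * t' + t * h' + (289 : ℤ) • (t * t') = 0 := by
    have : (289 : ℤ) • (h * t' + t * h' + (289 : ℤ) • (t * t')) = 0 := by
      have := e1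
      simp only [add_mul, mul_add, smul_mul_assoc, mul_smul_comm, e0] at this
      simp only [smul_add] at this ⊢
      linear_combination (norm := abel) this
    exact (smul_eq_zero.1 this).resolve_left (by norm_num)
  have k2 : h * b' + b * h' + (289 : ℤ) • (b * b') = 0 := by
    have : (289 : ℤ) • (h * b' + b * h' + (289 : ℤ) • (b * b')) = 0 := by
      have := e2
      simp only [add_mul, mul_add, smul_mul_assoc, mul_smul_comm, e0] at this
      simp only [smul_add] at this ⊢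
      linear_combination (norm := abel) this
    exact (smul_eq_zero.1 this).resolve_left (by norm_num)
  have a1 : h * (P * t') = P * (h * t') := by rw [← mul_assoc, ← c1.eq, mul_assoc]
  have a2 : h * (M * b') = M * (h * b') := by rw [← mul_assoc, ← c3.eq, mul_assoc]
  have a3 : P * t * (P * t') = P * ((289 : ℤ) • (t * t')) := by
    rw [mul_assoc, ← mul_assoc t, ← c2.eq, mul_assoc, ← mul_assoc, hPP, smul_mul_assoc,
      mul_smul_comm]
  have a4 : P * t * (M * b') = 0 := by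
    rw [mul_assoc, ← mul_assoc t, ← c4.eq, mul_assoc, ← mul_assoc, hPM, zero_mul]
  have a5 : M * b * (P * t') = 0 := by
    rw [c5.eq, mul_assoc, ← mul_assoc M, hMP, zero_mul, mul_zero]
  have a6 : M * b * (M * b') = M * ((289 : ℤ) • (b * b')) := by
    rw [mul_assoc, ← mul_assoc b, ← c5.eq, mul_assoc, ← mul_assoc, hMM, smul_mul_assoc,
      mul_smul_comm]
  have : (h + P * t + M * b) * (h' + P * t' + M * b')
      = h * h' + P * (h * t' + t * h' + (289 : ℤ) • (t * t'))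
        + M * (h * b' + b * h' + (289 : ℤ) • (b * b')) := by
    simp only [add_mul, mul_add, a1, a2, a3, a4, a5, a6, mul_assoc P t h', mul_assoc M b h']
    abel
  rw [this, k1, k2, e0]; simp

open MonoidAlgebra in
lemma star_mul' {G : Type} [Group G] (φ : MonoidAlgebra ℤ G →ₗ[ℤ] MonoidAlgebra ℤ G)
    (hφ : ∀ g : G, φ (of ℤ G g) = of ℤ G g⁻¹) (x y : MonoidAlgebra ℤ G) :
    φ (x * y) = φ y * φ x := by
  induction x using MonoidAlgebra.induction_on with
  | of g =>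
    induction y using MonoidAlgebra.induction_on with
    | of h => rw [← map_mul, hφ, hφ, hφ, ← map_mul, mul_inv_rev]
    | add a b ha hb => rw [mul_add, map_add, map_add, ha, hb, add_mul]
    | smul r a ha => rw [mul_smul_comm, map_smul, map_smul, ha, smul_mul_assoc]
  | add a b ha hb => rw [add_mul, map_add, map_add, ha, hb, mul_add]
  | smul r a ha => rw [smul_mul_assoc, map_smul, map_smul, ha, mul_smul_comm]

open MonoidAlgebra in
theorem exists_unit {G : Type} [Group G] (ν : N → G) (hν : ∀ a b, ν (a + b) = ν a * ν b)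
    (L X : G) (hL : L ^ 16 = 1) (hLν : ∀ n, Commute L (ν n)) (hXL : X * L = L ^ 7 * X)
    (hXν : ∀ n, X * ν n = ν (σ n) * X) (hX : X ^ 32 = L ^ 8)
    (hgen : ∀ p : G → Prop, (∀ n, p (ν n)) → p L → p X → (∀ x y, p x → p y → p (x * y)) →
      ∀ g, p g)
    (φ : MonoidAlgebra ℤ G →ₗ[ℤ] MonoidAlgebra ℤ G) (hφ : ∀ g : G, φ (of ℤ G g) = of ℤ G g⁻¹) :
    ∃ u : (MonoidAlgebra ℤ G)ˣ, (∀ x : MonoidAlgebra ℤ G, x * u = u * x) ∧
      φ u = of ℤ G (L ^ 8) * u := by
  have hν0 : ν 0 = 1 := by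
    have := hν 0 0
    rw [add_zero] at this
    exact left_eq_mul.1 this
  have hνn : ∀ n, (ν n)⁻¹ = ν (-n) := by
    intro n; rw [inv_eq_iff_mul_eq_one, ← hν, add_neg_cancel, hν0]
  have hLm : ∀ n : ℕ, L ^ ((n : ZMod 16).val) = L ^ n := by
    intro n; rw [ZMod.val_natCast, ← pow_eq_pow_mod n hL]
  have sXL : SemiconjBy X L (L ^ 7) := hXL
  have h2 : Commute (X ^ 2) L := by
    have : X ^ 2 * L = (L ^ 7) ^ 7 * X ^ 2 := by
      rw [pow_two, mul_assoc, hXL, ← mul_assoc, (sXL.pow_right 7).eq, mul_assoc]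
    rw [← pow_mul, pow_eq_pow_mod _ hL] at this
    rw [Commute, SemiconjBy]
    simpa using this
  have h4 : Commute (X ^ 4) L := by simpa [← pow_mul] using h2.pow_left 2
  set M := X ^ 4 * L ^ 15 with hM
  have cML : Commute M L := h4.mul_left ((Commute.refl L).pow_left 15)
  have hM8 : M ^ 8 = 1 := by
    rw [hM, (h4.pow_right 15).mul_pow, ← pow_mul, ← pow_mul, hX, ← pow_add, pow_eq_pow_mod _ hL]
    simp
  have sXM : SemiconjBy X M (L ^ 10 * M) := by
    have := ((Commute.refl X).pow_right 4).semiconjBy.mul_right (sXL.pow_right 15)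
    have e : L ^ 10 * M = X ^ 4 * (L ^ 7) ^ 15 := by
      rw [hM, ← mul_assoc, ← (h4.pow_right 10).eq, mul_assoc, ← pow_add, ← pow_mul,
        pow_eq_pow_mod _ hL, pow_eq_pow_mod (7 * 15) hL]
    rw [e]; exact this
  let ψG : T → G := fun b => L ^ b.1.val * M ^ b.2.val
  have hψG : ∀ a b, ψG (a + b) = ψG a * ψG b := by
    intro a b
    simp only [ψG, Prod.fst_add, Prod.snd_add, ZMod.val_add]
    rw [← pow_eq_pow_mod _ hL, ← pow_eq_pow_mod _ hM8, pow_add, pow_add]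
    exact ((cML.pow_pow _ _).symm.mul_mul_mul_comm _ _)
  have hψ0 : ψG 0 = 1 := by simp [ψG]
  have hψn : ∀ n, (ψG n)⁻¹ = ψG (-n) := by
    intro n; rw [inv_eq_iff_mul_eq_one, ← hψG, add_neg_cancel, hψ0]
  have hXψ : ∀ b, X * ψG b = ψG (aT b) * X := by
    intro b
    have := (sXL.pow_right b.1.val).mul_right (sXM.pow_right b.2.val)
    rw [(cML.pow_right 10).symm.mul_pow, ← pow_mul, ← pow_mul, ← mul_assoc, ← pow_add] at this
    simp only [ψG, aT, hLm]
    exact this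
  let o := of ℤ G
  let ψ : T → MonoidAlgebra ℤ G := fun b => o (ψG b)
  let μ : N → MonoidAlgebra ℤ G := fun b => o (ν b)
  have hψ : ∀ a b, ψ (a + b) = ψ a * ψ b := fun a b => by simp only [ψ, hψG, map_mul]
  have hμ : ∀ a b, μ (a + b) = μ a * μ b := fun a b => by simp only [μ, hν, map_mul]
  have ψ0 : ψ 0 = 1 := by simp only [ψ, hψ0, map_one]
  have μ0 : μ 0 = 1 := by simp only [μ, hν0, map_one]
  have hxψ : ∀ b, o X * ψ b = ψ (aT b) * o X := fun b => by simp only [ψ, ← map_mul, hXψ]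
  have hxμ : ∀ b, o X * μ b = μ (σ b) * o X := fun b => by simp only [μ, ← map_mul, hXν]
  have cψ : ∀ a b, Commute (ψ a) (ψ b) := fun a b => by
    rw [Commute, SemiconjBy, ← hψ, ← hψ, add_comm]
  have cμ : ∀ a b, Commute (μ a) (μ b) := fun a b => by
    rw [Commute, SemiconjBy, ← hμ, ← hμ, add_comm]
  have cψψ : ∀ F F', Commute (ev ψ F) (ev ψ F') := fun F F' =>
    ev_comm _ _ _ fun b _ => (ev_comm _ _ _ fun a _ => cψ b a).symm
  have cK : ∀ (F : T → ℤ), (∀ c, F c ≠ 0 → c.2 = 0) → ∀ n, Commute (μ n) (ev ψ F) := by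
    intro F hF n
    refine ev_comm _ _ _ fun b hb => ?_
    have : Commute (ν n) (ψG b) := by
      simp only [ψG, hF b hb, ZMod.val_zero, pow_zero, mul_one]
      exact (hLν n).symm.pow_right _
    exact this.map o
  have cK' : ∀ (F : T → ℤ), (∀ c, F c ≠ 0 → c.2 = 0) → ∀ F', Commute (ev μ F') (ev ψ F) :=
    fun F hF F' => (ev_comm _ _ _ fun b _ => (cK F hF b).symm).symm
  set Nh := ev μ (fun _ => 1) with hNh
  set P := ev μ pT with hP
  have nN : ∀ n, μ n * Nh = Nh := fun n => ev_shift μ hμ n _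
  have cN : ∀ g, Commute (o g) Nh := by
    apply hgen
    · intro n; exact ev_comm _ _ _ fun b _ => cμ n b
    · exact ev_comm _ _ _ fun b _ => (hLν b).map o
    · exact ev_conj μ (o X) σ σi σi_σ σ_σi hxμ _
    · intro x y hx hy; rw [map_mul]; exact hx.mul_left hy
  have cN' : ∀ F, Commute Nh (ev ψ F) := fun F => ev_comm _ _ _ fun b _ => (cN _).symm
  have hPM : P * Nh = 0 := by
    rw [ev_mul μ hμ pT (fun _ => 1) (fun _ => 0) (by intro c; simpa using p0)]
    simp [ev]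
  have hMP : Nh * P = 0 := by
    rw [← hPM]; exact (ev_comm _ _ _ fun b _ => (cN _).symm).eq
  have hMM : Nh * Nh = (289 : ℤ) • Nh := by
    rw [ev_mul μ hμ (fun _ => 1) (fun _ => 1) (fun _ => 289) (by intro c; simp),
      ev_lin μ (fun _ => 0) (fun _ => 1) _ 289 (by simp)]
    simp [ev, hNh]
  have hPP : P * P = (289 : ℤ) • P := by
    rw [ev_mul μ hμ pT pT _ p1, ev_lin μ (fun _ => 0) pT _ 289 (fun _ => rfl)]
    simp [ev, hP]
  have hxP : o X * P = ((289 : ℤ) • 1 - Nh - P) * o X := by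
    rw [ev_conj μ (o X) σ σi σi_σ σ_σi hxμ]
    refine congrArg (· * o X) ?_
    rw [← μ0, ← ev_delta μ 0 289]
    simp only [p3, hNh, hP, ev, sub_smul, Finset.sum_sub_distrib]
  have e0 : ev ψ H0 * ev ψ H0i = 1 := by rw [ev_mul ψ hψ _ _ _ c0, ev_delta, ψ0, one_smul]
  have e2 : ev ψ H1 * ev ψ H1i = 1 := by rw [ev_mul ψ hψ _ _ _ c1, ev_delta, ψ0, one_smul]
  have x0 : o X * ev ψ H0 = (ev ψ H0 + (289 : ℤ) • ev ψ tt) * o X := by
    rw [ev_conj ψ (o X) aT aT aT_aT aT_aT hxψ, ev_lin ψ _ _ _ _ d0]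
  have x0i : o X * ev ψ H0i = (ev ψ H0i + (289 : ℤ) • ev ψ tti) * o X := by
    rw [ev_conj ψ (o X) aT aT aT_aT aT_aT hxψ, ev_lin ψ _ _ _ _ d0i]
  have xt : o X * ev ψ tt = (- ev ψ tt) * o X := by
    rw [ev_conj ψ (o X) aT aT aT_aT aT_aT hxψ, ev_lin ψ (fun _ => 0) _ _ _ e1]
    simp [ev]
  have xb : o X * ev ψ bb = (ev ψ bb - ev ψ tt) * o X := by
    rw [ev_conj ψ (o X) aT aT aT_aT aT_aT hxψ, ev_lin ψ _ _ _ _ Pool.Agent.H.MP_29dbc1_al.e2]
    simp [sub_eq_add_neg]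
  have hxi : o X * o X⁻¹ = 1 := by rw [← map_mul, mul_inv_cancel, map_one]
  have e1' : (ev ψ H0 + (289 : ℤ) • ev ψ tt) * (ev ψ H0i + (289 : ℤ) • ev ψ tti) = 1 := by
    rw [← mul_one (_ * _), ← hxi, ← mul_assoc, mul_assoc _ _ (o X), ← x0i, ← mul_assoc, ← x0,
      mul_assoc (o X), e0, mul_one, hxi]
  rw [ev_lin ψ _ _ _ _ d1, ev_lin ψ _ _ _ _ d1i] at e2
  have huu := alg _ _ _ _ _ _ P Nh e0 e1' e2 hPP hMM hPM hMP (cK' _ s0 _) (cK' _ s1 _)
    (cN' _) (cN' _) (cN' _)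
  set u := ev ψ H0 + P * ev ψ tt + Nh * ev ψ bb with hu
  have cu : ∀ g, Commute (o g) u := by
    apply hgen
    · intro n
      refine ((cK _ s0 n).add_right ((ev_comm _ _ _ fun b _ => cμ n b).mul_right
        (cK _ s1 n))).add_right ?_
      rw [Commute, SemiconjBy, ← mul_assoc, nN, (cN' bb).eq, mul_assoc, ← (cN (ν n)).eq, nN]
    · have cL : ∀ F, Commute (o L) (ev ψ F) := by
        intro F
        have : o L = ψ (1, 0) := by
          simp only [ψ, ψG, ZMod.val_zero, pow_zero, mul_one]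
          rw [show (1 : ZMod 16).val = 1 from rfl, pow_one]
        rw [this]
        exact ev_comm _ _ _ fun b _ => cψ _ b
      exact ((cL _).add_right ((ev_comm _ _ _ fun b _ => (hLν b).map o).mul_right
        (cL _))).add_right ((cN L).mul_right (cL _))
    · rw [Commute, SemiconjBy, hu, mul_add, mul_add, x0, ← mul_assoc, hxP, mul_assoc, xt,
        ← mul_assoc, ← mul_assoc, (cN X).eq, mul_assoc Nh, xb, ← mul_assoc, ← add_mul, ← add_mul]
      refine congrArg (· * o X) ?_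
      simp only [sub_mul, mul_sub, mul_neg, smul_mul_assoc, one_mul]
      abel
    · intro x y hx hy; rw [map_mul]; exact hx.mul_left hy
  have cu' : ∀ x : MonoidAlgebra ℤ G, x * u = u * x := by
    intro x
    induction x using MonoidAlgebra.induction_on with
    | of g => exact (cu g).eq
    | add a b ha hb => rw [add_mul, ha, hb, ← mul_add]
    | smul r a ha => rw [smul_mul_assoc, mul_smul_comm, ha]
  refine ⟨⟨u, _, huu, by rw [cu', huu]⟩, cu', ?_⟩
  have hz : of ℤ G (L ^ 8) = ψ (8, 0) := by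
    simp only [ψ, ψG, ZMod.val_zero, pow_zero, mul_one]
    rfl
  have sψ : ∀ F : T → ℤ, (∀ c, F (-c) = F (c - (8, 0))) → φ (ev ψ F) = ψ (8, 0) * ev ψ F := by
    intro F hF
    rw [ev_star ψ φ (fun b => by simp only [ψ, o, hφ, hψn]), ev_shift ψ hψ]
    simp only [hF]
  have sμ : ∀ F : N → ℤ, (∀ c, F (-c) = F c) → φ (ev μ F) = ev μ F := by
    intro F hF
    rw [ev_star μ φ (fun b => by simp only [μ, o, hφ, hνn])]
    simp only [hF]
  change φ u = _ * u
  rw [hz, hu, map_add, map_add, star_mul' φ hφ, star_mul' φ hφ, sψ _ z0, sψ _ z1, sψ _ z2,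
    sμ _ p2, sμ _ (fun _ => rfl), mul_add, mul_add, (cK' _ s1 pT).eq, (cN' bb).eq,
    mul_assoc, mul_assoc]

theorem center_sq {G : Type} [Group G] (ν : N → G) (hν : ∀ a b, ν (a + b) = ν a * ν b)
    (L X : G) (hL : L ^ 16 = 1) (hLν : ∀ n, Commute L (ν n)) (hXL : X * L = L ^ 7 * X)
    (hXν : ∀ n, X * ν n = ν (σ n) * X) (hX : X ^ 32 = L ^ 8)
    (hgen : ∀ p : G → Prop, (∀ n, p (ν n)) → p L → p X → (∀ x y, p x → p y → p (x * y)) →
      ∀ g, p g)
    (hsep : ∀ n n' (i j : ℕ), ν n * L ^ i = ν n' * L ^ j → n = n')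
    (g : G) (hg : g ∈ Subgroup.center G) : g * g = 1 := by
  have hν0 : ν 0 = 1 := by
    have := hν 0 0
    rw [add_zero] at this
    exact left_eq_mul.1 this
  have k1 : ∀ (k : ℕ) n, X ^ k * ν n = ν (σ^[k] n) * X ^ k := by
    intro k
    induction k with
    | zero => simp
    | succ k ih =>
      intro n
      rw [pow_succ', mul_assoc, ih, ← mul_assoc, hXν, Function.iterate_succ_apply', mul_assoc]
  have k2 : ∀ (k i : ℕ), X ^ k * L ^ i = L ^ (7 ^ k * i) * X ^ k := by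
    intro k
    induction k with
    | zero => simp
    | succ k ih =>
      intro i
      have sXL : SemiconjBy X L (L ^ 7) := hXL
      rw [pow_succ', mul_assoc, ih, ← mul_assoc, (sXL.pow_right _).eq, ← pow_mul, mul_assoc,
        pow_succ' 7, mul_assoc]
  obtain ⟨n, i, k, hgn⟩ : ∃ n, ∃ i k : ℕ, g = ν n * L ^ i * X ^ k := by
    clear hg
    revert g
    apply hgen
    · intro n; exact ⟨n, 0, 0, by simp⟩
    · exact ⟨0, 1, 0, by simp [hν0]⟩
    · exact ⟨0, 0, 1, by simp [hν0]⟩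
    · rintro x y ⟨n, i, k, rfl⟩ ⟨n', i', k', rfl⟩
      refine ⟨n + σ^[k] n', i + 7 ^ k * i', k + k', ?_⟩
      rw [hν, pow_add, pow_add]
      calc ν n * L ^ i * X ^ k * (ν n' * L ^ i' * X ^ k')
          = ν n * L ^ i * (X ^ k * ν n') * L ^ i' * X ^ k' := by simp only [mul_assoc]
        _ = ν n * (L ^ i * ν (σ^[k] n')) * (X ^ k * L ^ i') * X ^ k' := by
          rw [k1]; simp only [mul_assoc]
        _ = _ := by rw [k2, ((hLν _).pow_left i).eq]; simp only [mul_assoc]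
  rw [Subgroup.mem_center_iff] at hg
  have a1 : σ^[k] (1, 0) = (1, 0) := by
    have := hg (ν (1, 0))
    rw [hgn, mul_assoc _ (X ^ k), k1, ← mul_assoc, ← mul_assoc, ← mul_assoc, mul_left_inj,
      mul_assoc (ν n), ((hLν _).pow_left i).eq, ← mul_assoc, ← hν, ← hν] at this
    have := hsep _ _ _ _ this
    rw [add_comm] at this
    exact (add_left_cancel this).symm
  have a2 : k % 32 = 0 := by
    apply σ_ord _ (Nat.mod_lt _ (by norm_num))
    rw [← Nat.mod_add_div k 32, Function.iterate_add_apply, Function.iterate_mul,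
      Function.iterate_fixed (σ_32 _)] at a1
    exact a1
  obtain ⟨q, rfl⟩ := Nat.dvd_of_mod_eq_zero a2
  have hg2 : g = ν n * L ^ (i + 8 * q) := by
    rw [hgn, pow_mul, hX, ← pow_mul, pow_add, mul_assoc]
  have a3 : ν (σ n) * L ^ (7 * (i + 8 * q)) = ν n * L ^ (i + 8 * q) := by
    have h1 := hg X
    have h2 := k2 1 (i + 8 * q)
    rw [pow_one, pow_one] at h2
    rw [hg2, ← mul_assoc, hXν, mul_assoc, h2, ← mul_assoc, mul_left_inj] at h1
    exact h1
  have a4 := σ_fix n (hsep _ _ _ _ a3)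
  subst a4
  rw [show σ 0 = 0 by decide, mul_right_inj] at a3
  rw [hg2, hν0, one_mul]
  set y := L ^ (i + 8 * q) with hy
  have y16 : y ^ 16 = 1 := by rw [hy, ← pow_mul, mul_comm, pow_mul, hL, one_pow]
  have y7 : y ^ 7 = y := by rw [hy, ← pow_mul, mul_comm]; exact a3
  have y6 : y ^ 6 = 1 := by
    have : y ^ 6 * y = 1 * y := by rw [← pow_succ, y7, one_mul]
    exact mul_right_cancel this
  have : y ^ 18 = 1 := by rw [show 18 = 6 * 3 from rfl, pow_mul, y6, one_pow]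
  rw [show 18 = 16 + 2 from rfl, pow_add, y16, one_mul, pow_two] at this
  exact this

abbrev Ω := Equiv.Perm N × Equiv.Perm (ZMod 64)

def lam : Equiv.Perm (ZMod 64) where
  toFun j := j + (if j.val % 2 = 0 then 4 else 28)
  invFun j := j - (if j.val % 2 = 0 then 4 else 28)
  left_inv := by decide +kernel
  right_inv := by decide +kernel

def ν0 (n : N) : Ω := (Equiv.addLeft n, 1)
def L0 : Ω := (1, lam)
def X0 : Ω := (⟨σ, σi, σi_σ, σ_σi⟩, Equiv.addLeft 1)

lemma r1 (a b : N) : ν0 (a + b) = ν0 a * ν0 b := by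
  refine Prod.ext ?_ (by simp [ν0])
  ext x <;> simp [ν0, add_assoc]

lemma r2 : L0 ^ 16 = 1 := by
  refine Prod.ext (by simp [L0]) ?_
  refine Equiv.ext ?_
  decide +kernel

lemma r3 (n : N) : L0 * ν0 n = ν0 n * L0 := by
  refine Prod.ext (by simp [L0, ν0]) (by simp [L0, ν0])

lemma r4 : X0 * L0 = L0 ^ 7 * X0 := by
  refine Prod.ext (by simp [L0]) ?_
  refine Equiv.ext ?_
  decide +kernel

lemma r5 (n : N) : X0 * ν0 n = ν0 (σ n) * X0 := by
  refine Prod.ext ?_ (by simp [ν0])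
  ext x <;> simp [ν0, X0, σ, mul_add]

lemma r6 : X0 ^ 32 = L0 ^ 8 := by
  refine Prod.ext ?_ ?_
  · refine Equiv.ext fun x => ?_
    rw [Prod.pow_fst, Equiv.Perm.coe_pow]
    simpa [L0, X0] using σ_32 x
  · refine Equiv.ext ?_
    decide +kernel

lemma r7 (n n' : N) (i j : ℕ) (h : ν0 n * L0 ^ i = ν0 n' * L0 ^ j) : n = n' := by
  have := congrArg (fun w : Ω => w.1 0) h
  simpa [ν0, L0] using this

lemma r8 : L0 ^ 8 ≠ 1 := by
  intro h
  have := congrArg (fun w : Ω => w.2 0) h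
  revert this
  decide +kernel

def GG : Subgroup Ω := Subgroup.closure (Set.range ν0 ∪ {L0, X0})

def νG (n : N) : GG := ⟨ν0 n, Subgroup.subset_closure (Or.inl ⟨n, rfl⟩)⟩
def LG : GG := ⟨L0, Subgroup.subset_closure (Or.inr (Or.inl rfl))⟩
def XG : GG := ⟨X0, Subgroup.subset_closure (Or.inr (Or.inr rfl))⟩

lemma hgenG (p : GG → Prop) (h1 : ∀ n, p (νG n)) (h2 : p LG) (h3 : p XG)
    (h4 : ∀ x y, p x → p y → p (x * y)) (g : GG) : p g := by
  have h0 : p 1 := by
    have : νG 0 = 1 := by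
      apply Subtype.ext
      refine Prod.ext ?_ rfl
      ext x <;> simp [νG, ν0]
    rw [← this]; exact h1 0
  have hp : ∀ x, p x → ∀ n : ℕ, p (x ^ n) := by
    intro x hx n
    induction n with
    | zero => rw [pow_zero]; exact h0
    | succ n ih => rw [pow_succ]; exact h4 _ _ ih hx
  obtain ⟨g, hg⟩ := g
  induction hg using Subgroup.closure_induction with
  | mem x hx =>
    rcases hx with ⟨n, rfl⟩ | rfl | rfl
    · exact h1 n
    · exact h2
    · exact h3
  | one => exact h0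
  | mul x y hx hy ihx ihy => exact h4 _ _ ihx ihy
  | inv x hx ih =>
    have e : (⟨x, hx⟩ : GG)⁻¹ = (⟨x, hx⟩ : GG) ^ (orderOf (⟨x, hx⟩ : GG) - 1) := by
      rw [inv_eq_iff_mul_eq_one, ← pow_succ', Nat.sub_add_cancel (orderOf_pos _), pow_orderOf_eq_one]
    have := hp _ ih (orderOf (⟨x, hx⟩ : GG) - 1)
    rw [← e] at this
    exact this

theorem main :
    ¬ (∀ (G : Type) [Group G] [Finite G]
      (φ : MonoidAlgebra ℤ G →ₗ[ℤ] MonoidAlgebra ℤ G),
      (∀ g : G, φ (MonoidAlgebra.of ℤ G g) = MonoidAlgebra.of ℤ G g⁻¹) →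
      ∀ (u : (MonoidAlgebra ℤ G)ˣ),
      (∀ x : MonoidAlgebra ℤ G, x * (u : MonoidAlgebra ℤ G) = (u : MonoidAlgebra ℤ G) * x) →
      ∃ g ∈ Subgroup.center G, ∃ v : (MonoidAlgebra ℤ G)ˣ,
        (∀ x : MonoidAlgebra ℤ G, x * (v : MonoidAlgebra ℤ G) = (v : MonoidAlgebra ℤ G) * x) ∧
        φ (v : MonoidAlgebra ℤ G) = (v : MonoidAlgebra ℤ G) ∧
        (u : MonoidAlgebra ℤ G) = MonoidAlgebra.of ℤ G g * (v : MonoidAlgebra ℤ G)) := by
  intro h
  let φ : MonoidAlgebra ℤ GG →ₗ[ℤ] MonoidAlgebra ℤ GG :=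
    MonoidAlgebra.mapDomainLinearMap ℤ ℤ (fun g : GG => g⁻¹)
  have hφ : ∀ g : GG, φ (MonoidAlgebra.of ℤ GG g) = MonoidAlgebra.of ℤ GG g⁻¹ := by
    intro g; simp [φ]
  have q1 : ∀ a b, νG (a + b) = νG a * νG b := fun a b => Subtype.ext (r1 a b)
  have q2 : LG ^ 16 = 1 := Subtype.ext r2
  have q3 : ∀ n, Commute LG (νG n) := fun n => Subtype.ext (r3 n)
  have q4 : XG * LG = LG ^ 7 * XG := Subtype.ext r4
  have q5 : ∀ n, XG * νG n = νG (σ n) * XG := fun n => Subtype.ext (r5 n)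
  have q6 : XG ^ 32 = LG ^ 8 := Subtype.ext r6
  obtain ⟨u, hu, hs⟩ := exists_unit νG q1 LG XG q2 q3 q4 q5 q6 hgenG φ hφ
  obtain ⟨g, hg, v, hv, hsv, huv⟩ := h GG φ hφ u hu
  have hgg := center_sq νG q1 LG XG q2 q3 q4 q5 q6 hgenG
    (fun n n' i j hh => r7 n n' i j (congrArg Subtype.val hh)) g hg
  have : φ u = u := by
    rw [huv, star_mul' φ hφ, hsv, hφ, inv_eq_of_mul_eq_one_right hgg, hv]
  rw [this] at hs
  have h1 : MonoidAlgebra.of ℤ GG (LG ^ 8) = MonoidAlgebra.of ℤ GG 1 := by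
    rw [map_one]
    exact ((Units.mul_left_inj u).1 (by rw [one_mul]; exact hs)).symm
  exact r8 (congrArg Subtype.val (MonoidAlgebra.of_injective h1))

end Pool.Agent.H.MP_29dbc1_al
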